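import Mathlib
import Pool.Agent.H6.PermOsc

namespace Pool.Agent.Results.MP_414122_co.Q1False

open Pool.Agent.H6.PermOsc

theorem result : ∃ C : Set (List ℕ), IsClass C ∧ SumClosed C ∧
    1 < upperGr (ind C) ∧ upperGr C < 1 + √2 := by
  refine ⟨CC, cc_class, cc_sum, ind_lower, cc_upper.trans_lt ?_⟩
  have : (141 / 100 : ℝ) < √2 := Real.lt_sqrt_of_sq_lt (by norm_num)
  linarith

end Pool.Agent.Results.MP_414122_co.Q1False
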